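import Pool.Agent.Helper20.Mono.GoalsH

/-! # EX4: the triangulated Newton boundary, convenient case -/

namespace Mono

open Finset

variable {n : ℕ}

theorem psi_empty (F : Finset (Fin n → ℤ)) (x : Fin n → ℝ) :
    psi ∅ F x = ∑ u ∈ F, crd F x u := by
  simp [psi]

theorem toR_single (i : Fin n) (d : ℤ) :
    toR (Pi.single i d : Fin n → ℤ) = (d : ℝ) • (Pi.single i 1 : Fin n → ℝ) := by
  funext j
  by_cases hj : j = i
  · subst hj; simp
  · simp [Pi.single_eq_of_ne hj]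

theorem psi_single_pos {A : Finset (Fin n → ℤ)} (hA : GenOrthant A) {F : Finset (Fin n → ℤ)}
    (hF : Indep F) (hc : F.card = n) (h1 : ∀ u ∈ A, 1 ≤ psi ∅ F (toR u)) (i : Fin n) :
    0 < psi ∅ F (Pi.single i 1) := by
  obtain ⟨r, hr, d, hd, rfl⟩ := hA.2.2 i
  have h2 := h1 _ hr
  rw [toR_single, psi_smul ∅ hF hc] at h2
  have hd' : (0 : ℝ) < d := by exact_mod_cast hd
  by_contra hneg
  push Not at hneg
  have : (d : ℝ) * psi ∅ F (Pi.single i 1) ≤ 0 := mul_nonpos_of_nonneg_of_nonpos hd'.le hneg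
  linarith

theorem newtonFanConv (h : FanOfGeneric) (h' : GenericHeights) : NewtonFanConv := by
  intro n A hA
  obtain ⟨g, hg1, hg2⟩ := h' n A (fun _ => 1) (fun _ => 0)
  obtain ⟨Φ, hv, hco, hmx⟩ := h n A g hA hg1
  refine ⟨Φ, hv, ⟨by simp, by simp, ?_⟩, hco⟩
  intro F hF
  have hFA : F ⊆ A := hv ▸ Φ.mx_sub F hF
  have hFc := Φ.mx_card F hF
  have hFi := Φ.mx_indep F hF
  have key : ∀ u ∈ A, 1 ≤ psi ∅ F (toR u) := by
    intro v hvA
    have h3 := (hg2 F hFA hFc hFi v hvA (hmx F hF v hvA)).1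
    rw [psi_empty]
    simpa using h3
  refine ⟨fun u hu => key u ?_, fun i => (psi_single_pos hA hFi hFc key i).le⟩
  rw [hv] at hu
  simpa using hu

/-- An integer vector `a` with `⟨a, u⟩ = M > 0` for all vectors `u` of a basis. -/
theorem exists_int_functional {F : Finset (Fin n → ℤ)} (hF : Indep F) (hc : F.card = n) :
    ∃ (a : Fin n → ℤ) (M : ℤ), 0 < M ∧ ∀ u ∈ F, a ⬝ᵥ u = M := by
  classical
  let e : Fin n ≃ F := (F.equivFinOfCardEq hc).symm
  let U : Matrix (Fin n) (Fin n) ℤ := fun i j => (e i : Fin n → ℤ) j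
  have hdet : U.det ≠ 0 := by
    intro h0
    have h1 : (U.map (Int.castRingHom ℝ)).det = 0 := by
      rw [← RingHom.mapMatrix_apply, ← RingHom.map_det, h0, map_zero]
    have h2 : LinearIndependent ℝ (U.map (Int.castRingHom ℝ)).row := by
      have h3 : LinearIndependent ℝ (fun i : Fin n => toR ((e i : F) : Fin n → ℤ)) :=
        hF.comp e e.injective
      exact h3
    rw [Matrix.linearIndependent_rows_iff_isUnit, Matrix.isUnit_iff_isUnit_det, h1] at h2
    simp at h2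
  have hmul : ∀ (c : ℤ) (i : Fin n), (U.mulVec (fun j => c * (U.adjugate.mulVec 1) j)) i =
      c * U.det := by
    intro c i
    have h1 : U.mulVec (U.adjugate.mulVec 1) = fun _ => U.det := by
      rw [Matrix.mulVec_mulVec, Matrix.mul_adjugate]
      funext i
      simp [Matrix.smul_mulVec]
    have h2 : (fun j => c * (U.adjugate.mulVec 1) j) = c • (U.adjugate.mulVec 1) := by
      funext j; simp
    rw [h2, Matrix.mulVec_smul, h1]
    simp
  refine ⟨fun j => U.det.sign * (U.adjugate.mulVec 1) j, U.det.sign * U.det, ?_, ?_⟩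
  · rw [Int.sign_mul_self_eq_natAbs]
    exact_mod_cast Int.natAbs_pos.2 hdet
  · intro u hu
    have := hmul U.det.sign (e.symm ⟨u, hu⟩)
    rw [← this]
    simp only [Matrix.mulVec, dotProduct, U, Equiv.apply_symm_apply]
    exact sum_congr rfl fun j _ => mul_comm _ _

theorem niceConv : NiceConv := by
  intro n A Φ hn hA hv hN
  have hne : A.Nonempty := by
    obtain ⟨r, hr, -⟩ := hA.2.2 ⟨0, hn⟩
    exact ⟨r, hr⟩
  refine ⟨hne, hA.1, hA.2.1, by simp, by simp [hv], hN, ?_⟩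
  intro F hF
  have hFA : F ⊆ A := hv ▸ Φ.mx_sub F hF
  have hFc := Φ.mx_card F hF
  have hFi := Φ.mx_indep F hF
  have key : ∀ u ∈ A, 1 ≤ psi ∅ F (toR u) := by
    intro u hu
    exact (hN.2.2 F hF).1 u (by simpa [hv] using hu)
  obtain ⟨a, M, hM, haM⟩ := exists_int_functional hFi hFc
  have hdotR : ∀ x y : Fin n → ℤ, toR x ⬝ᵥ toR y = ((x ⬝ᵥ y : ℤ) : ℝ) := by
    intro x y
    simp [dotProduct]
  have hpsi : ∀ x : Fin n → ℝ, toR a ⬝ᵥ x = M * psi ∅ F x := by
    intro x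
    rw [dot_eq_sum_crd hFi hFc, psi_empty, mul_sum]
    refine sum_congr rfl fun u hu => ?_
    rw [hdotR, haM u hu, mul_comm]
  have hMR : (0 : ℝ) < M := by exact_mod_cast hM
  have hge : ∀ v ∈ A, M ≤ a ⬝ᵥ v := by
    intro v hvA
    have h1 : ((a ⬝ᵥ v : ℤ) : ℝ) = M * psi ∅ F (toR v) := by rw [← hdotR, hpsi]
    have h2 : (M : ℝ) ≤ ((a ⬝ᵥ v : ℤ) : ℝ) := by
      rw [h1]
      exact le_mul_of_one_le_right hMR.le (key v hvA)
    exact_mod_cast h2
  refine ⟨a, ?_, ?_⟩
  · intro i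
    have h1 := hpsi (Pi.single i 1)
    have h2 : toR a ⬝ᵥ (Pi.single i 1 : Fin n → ℝ) = (a i : ℝ) := by simp
    rw [h2] at h1
    have h3 : (0 : ℝ) < a i := by
      rw [h1]
      exact mul_pos hMR (psi_single_pos hA hFi hFc key i)
    exact_mod_cast h3
  · have hNA : NA A a = M := by
      unfold NA
      have hFne : F.Nonempty := by
        rw [← Finset.card_pos, hFc]; exact hn
      obtain ⟨u₀, hu₀⟩ := hFne
      apply le_antisymm
      · refine csInf_le ⟨M, ?_⟩ ⟨u₀, hFA hu₀, (haM u₀ hu₀).symm⟩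
        rintro z ⟨v, hvA, rfl⟩
        exact hge v hvA
      · refine le_csInf ⟨_, u₀, hFA hu₀, rfl⟩ ?_
        rintro z ⟨v, hvA, rfl⟩
        exact hge v hvA
    intro u hu
    rw [hNA]
    exact haM u (by simpa using hu)

end Mono
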