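import Pool.Agent.Helper20.Mono.GoalsH

/-! # H4: poles of a rational function known at the positive real numbers -/

namespace Mono

open Polynomial Finset

theorem poleLemma : PoleLemma := by
  classical
  intro Z 𝒜 q h s₀ hs₀
  set B := 𝒜.filter (fun a => q a ≠ 0) with hB
  let P : ℝ → ℂ[X] := fun a => ∑ k ∈ range ((q a).natDegree + 1),
    C (((q a).coeff k : ℝ) : ℂ) * (X + C (a : ℂ)) ^ ((q a).natDegree - k)
  have hP : ∀ (a s : ℝ), s + a ≠ 0 → (P a).eval (s : ℂ) =
      (((s + a) ^ (q a).natDegree * (q a).eval (1 / (s + a)) : ℝ) : ℂ) := by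
    intro a s hsa
    simp only [P, eval_finsetSum, eval_mul, eval_C, eval_pow, eval_add, eval_X]
    rw [eval_eq_sum_range, mul_sum]
    push_cast
    refine sum_congr rfl fun k hk => ?_
    have hk' : k ≤ (q a).natDegree := Nat.lt_succ_iff.1 (mem_range.1 hk)
    have h0 : ((s : ℂ) + (a : ℂ)) ≠ 0 := by exact_mod_cast hsa
    have h1 : ((s : ℂ) + (a : ℂ)) ^ (q a).natDegree =
        ((s : ℂ) + (a : ℂ)) ^ ((q a).natDegree - k) * ((s : ℂ) + (a : ℂ)) ^ k := by
      rw [← pow_add, Nat.sub_add_cancel hk']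
    rw [h1, one_div, inv_pow]
    field_simp
  let D' : ℂ[X] := ∏ b ∈ B, (X + C (b : ℂ)) ^ (q b).natDegree
  let Nn : ℂ[X] := D' - X * ∑ a ∈ B, P a * ∏ b ∈ B.erase a, (X + C (b : ℂ)) ^ (q b).natDegree
  have key : ∀ s : ℝ, 0 < s → (∀ a ∈ 𝒜, s + a ≠ 0) →
      (Z.num * ((X + 1) * D')).eval (s : ℂ) = (Nn * Z.denom).eval (s : ℂ) := by
    intro s hs hgood
    obtain ⟨h1, h2⟩ := h s hs hgood
    have h3 : RatFunc.eval (RingHom.id ℂ) (s : ℂ) Z =
        Z.num.eval (s : ℂ) / Z.denom.eval (s : ℂ) := by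
      simp [RatFunc.eval, eval₂_id]
    rw [h3, div_eq_iff h1] at h2
    rw [eval_mul, h2, eval_mul, eval_mul, mul_right_comm]
    congr 1
    have hD' : D'.eval (s : ℂ) = ∏ b ∈ B, ((s : ℂ) + (b : ℂ)) ^ (q b).natDegree := by
      simp [D', eval_prod]
    have hs1 : ((s : ℂ) + 1) ≠ 0 := by
      have : s + 1 ≠ 0 := by positivity
      exact_mod_cast this
    have hsum : ∑ a ∈ 𝒜, (q a).eval (1 / (s + a)) = ∑ a ∈ B, (q a).eval (1 / (s + a)) := by
      rw [hB, sum_filter]
      refine sum_congr rfl fun a _ => ?_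
      split_ifs with hq
      · rfl
      · push Not at hq
        simp [hq]
    rw [hsum]
    have hN : Nn.eval (s : ℂ) = D'.eval (s : ℂ) * (1 - (s : ℂ) * ∑ a ∈ B,
        (((q a).eval (1 / (s + a)) : ℝ) : ℂ)) := by
      have hs2 : ∑ a ∈ B, (P a * ∏ b ∈ B.erase a, (X + C (b : ℂ)) ^ (q b).natDegree).eval
          (s : ℂ) = D'.eval (s : ℂ) * ∑ a ∈ B, (((q a).eval (1 / (s + a)) : ℝ) : ℂ) := by
        rw [mul_sum]
        refine sum_congr rfl fun a ha => ?_
        have haA : a ∈ 𝒜 := (mem_filter.1 ha).1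
        rw [eval_mul, hP a s (hgood a haA), hD', eval_prod, ← mul_prod_erase B _ ha]
        simp only [eval_pow, eval_add, eval_X, eval_C]
        push_cast
        ring
      simp only [Nn, eval_sub, eval_mul, eval_X]
      rw [eval_finsetSum, hs2]
      ring
    rw [hN]
    have : (X + 1 : ℂ[X]).eval (s : ℂ) = (s : ℂ) + 1 := by simp
    rw [this]
    push_cast
    field_simp
  have hpoly : Z.num * ((X + 1) * D') = Nn * Z.denom := by
    apply Polynomial.eq_of_infinite_eval_eq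
    have hinf : (Set.Ioi (0 : ℝ) \ ((𝒜.image (fun a => -a) : Finset ℝ) : Set ℝ)).Infinite :=
      (Set.Ioi_infinite 0).sdiff (Finset.finite_toSet _)
    have hinf' := hinf.image (f := fun x : ℝ => (x : ℂ)) (Complex.ofReal_injective.injOn)
    refine hinf'.mono ?_
    rintro _ ⟨s, ⟨hs, hs'⟩, rfl⟩
    refine key s hs fun a ha hsa => hs' ?_
    simp only [coe_image, Set.mem_image, mem_coe]
    exact ⟨a, ha, by linarith⟩
  have hdvd : Z.denom ∣ (X + 1) * D' := by
    have hc : IsCoprime Z.denom Z.num := (RatFunc.isCoprime_num_denom Z).symm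
    exact hc.dvd_of_dvd_mul_left ⟨Nn, by rw [hpoly, mul_comm]⟩
  obtain ⟨R, hR⟩ := hdvd
  have h0 : ((X + 1) * D').eval s₀ = 0 := by
    rw [hR, eval_mul, hs₀, zero_mul]
  rw [eval_mul, mul_eq_zero] at h0
  rcases h0 with h0 | h0
  · left
    simp only [eval_add, eval_X, eval_one] at h0
    exact eq_neg_of_add_eq_zero_left h0
  · right
    simp only [D', eval_prod, eval_pow, eval_add, eval_X, eval_C] at h0
    obtain ⟨a, ha, ha0⟩ := Finset.prod_eq_zero_iff.1 h0
    obtain ⟨haA, hq⟩ := mem_filter.1 ha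
    exact ⟨a, haA, hq, eq_neg_of_add_eq_zero_left (by
      by_contra hne
      exact pow_ne_zero _ hne ha0)⟩

end Mono
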